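import Mathlib

/-!
Directional derivatives of forms and their relation with fat points.
-/

namespace Pool.Agent.Lib.MP_efa40c_ag

open MvPolynomial

set_option linter.unusedSectionVars false
set_option linter.unusedSimpArgs false

variable {σ : Type} [Fintype σ] [DecidableEq σ]

/-- The directional derivative in the direction `p`, as a derivation. -/
noncomputable def dirDer (p : σ → ℂ) : Derivation ℂ (MvPolynomial σ ℂ) (MvPolynomial σ ℂ) :=
  mkDerivation ℂ (fun i => C (p i))

/-- The directional derivative in the direction `p`, as a linear endomorphism. -/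
noncomputable def dd (p : σ → ℂ) : Module.End ℂ (MvPolynomial σ ℂ) := (dirDer p).toLinearMap

lemma dd_apply (p : σ → ℂ) (F : MvPolynomial σ ℂ) : dd p F = dirDer p F := rfl

@[simp] lemma dirDer_X (p : σ → ℂ) (i : σ) : dirDer p (X i) = C (p i) := by
  simp [dirDer]

lemma dirDer_eq_sum (p : σ → ℂ) (F : MvPolynomial σ ℂ) :
    dirDer p F = ∑ i, C (p i) * pderiv i F := by
  induction F using MvPolynomial.induction_on with
  | C a => simp
  | add f g hf hg => simp [hf, hg, mul_add, Finset.sum_add_distrib]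
  | mul_X f i hf =>
    simp only [Derivation.leibniz, smul_eq_mul, dirDer_X, hf, mul_add, Finset.sum_add_distrib,
      Finset.mul_sum]
    congr 1
    · rw [Finset.sum_eq_single i]
      · simp [mul_comm]
      · intro b _ hb
        simp [pderiv_X_of_ne hb.symm]
      · simp
    · apply Finset.sum_congr rfl
      intro x _
      ring

lemma dd_comm (p q : σ → ℂ) : Commute (dd p) (dd q) := by
  have h : ⁅dirDer p, dirDer q⁆ = 0 := by
    apply derivation_ext
    intro i
    simp [Derivation.commutator_apply]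
  refine LinearMap.ext (fun F => ?_)
  have := congrArg (fun D : Derivation ℂ (MvPolynomial σ ℂ) (MvPolynomial σ ℂ) => D F) h
  simp only [Derivation.commutator_apply, Derivation.coe_zero, Pi.zero_apply] at this
  simpa [dd_apply, sub_eq_zero] using this

lemma dd_pow_comm (p q : σ → ℂ) (a b : ℕ) (F : MvPolynomial σ ℂ) :
    (dd p ^ a) ((dd q ^ b) F) = (dd q ^ b) ((dd p ^ a) F) := by
  have := ((dd_comm p q).pow_pow a b).eq
  exact congrArg (fun L : Module.End ℂ (MvPolynomial σ ℂ) => L F) this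

lemma dd_hom (p : σ → ℂ) {F : MvPolynomial σ ℂ} {n : ℕ} (h : F.IsHomogeneous n) :
    (dd p F).IsHomogeneous (n - 1) := by
  rw [dd_apply, dirDer_eq_sum]
  exact IsHomogeneous.sum _ _ _ (fun i _ => (h.pderiv).C_mul _)

lemma dd_pow_hom (p : σ → ℂ) {F : MvPolynomial σ ℂ} {n : ℕ} (h : F.IsHomogeneous n) (j : ℕ) :
    ((dd p ^ j) F).IsHomogeneous (n - j) := by
  induction j with
  | zero => simpa using h
  | succ j ih =>
    rw [pow_succ', Module.End.mul_apply]
    have := dd_hom p ih
    rwa [Nat.sub_sub] at this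

lemma dd_of_hom_zero (p : σ → ℂ) {F : MvPolynomial σ ℂ} (h : F.IsHomogeneous 0) :
    dd p F = 0 := by
  have h0 : F.totalDegree = 0 := (totalDegree_zero_iff_isHomogeneous σ).mpr h
  rw [totalDegree_eq_zero_iff_eq_C] at h0
  rw [h0, dd_apply]
  simp

lemma dd_pow_eq_zero (p : σ → ℂ) {F : MvPolynomial σ ℂ} {n j : ℕ} (h : F.IsHomogeneous n)
    (hj : n < j) : (dd p ^ j) F = 0 := by
  obtain ⟨k, rfl⟩ : ∃ k, j = k + 1 + n := ⟨j - 1 - n, by omega⟩
  have h1 := dd_pow_hom p h n
  rw [Nat.sub_self] at h1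
  rw [pow_add, pow_succ, Module.End.mul_apply, Module.End.mul_apply, dd_of_hom_zero p h1, map_zero]

lemma dd_pow_mul_of_zero (p : σ → ℂ) {H : MvPolynomial σ ℂ} (hH : dd p H = 0) (j : ℕ)
    (B : MvPolynomial σ ℂ) : (dd p ^ j) (H * B) = H * (dd p ^ j) B := by
  induction j generalizing B with
  | zero => simp
  | succ j ih =>
    rw [pow_succ, Module.End.mul_apply, Module.End.mul_apply, ← ih]
    congr 1
    rw [dd_apply] at hH
    simp [dd_apply, hH]

lemma dd_pow_zero_of_zero (p : σ → ℂ) {H : MvPolynomial σ ℂ} (hH : dd p H = 0) (k : ℕ) :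
    dd p (H ^ k) = 0 := by
  rw [dd_apply] at *
  simp [Derivation.leibniz_pow, hH]

/-- The linear form attached to a linear functional. -/
noncomputable def lin (f : Module.Dual ℂ (σ → ℂ)) : MvPolynomial σ ℂ :=
  ∑ i, C (f (Pi.single i 1)) * X i

lemma dual_eq_sum (f : Module.Dual ℂ (σ → ℂ)) (p : σ → ℂ) :
    ∑ i, f (Pi.single i 1) * p i = f p := by
  conv_rhs => rw [pi_eq_sum_univ' p]
  simp [map_sum, mul_comm]

lemma lin_hom (f : Module.Dual ℂ (σ → ℂ)) : (lin f).IsHomogeneous 1 :=
  IsHomogeneous.sum _ _ _ (fun _ _ => isHomogeneous_C_mul_X _ _)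

lemma dd_lin (f : Module.Dual ℂ (σ → ℂ)) (p : σ → ℂ) : dd p (lin f) = C (f p) := by
  rw [dd_apply, lin, map_sum, ← dual_eq_sum f p, map_sum]
  simp

lemma eval_lin (f : Module.Dual ℂ (σ → ℂ)) (p : σ → ℂ) : eval p (lin f) = f p := by
  rw [lin, map_sum, ← dual_eq_sum f p]
  simp

/-- The expansion `F (x + t p)` as a polynomial in `t`. -/
noncomputable def tay (p : σ → ℂ) : MvPolynomial σ ℂ →ₐ[ℂ] Polynomial (MvPolynomial σ ℂ) :=
  aeval (fun i => Polynomial.C (X i) + Polynomial.C (C (p i)) * Polynomial.X)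

lemma tay_C (p : σ → ℂ) (a : ℂ) : tay p (C a) = Polynomial.C (C a) := by
  simp [tay]

lemma tay_X (p : σ → ℂ) (i : σ) :
    tay p (X i) = Polynomial.C (X i) + Polynomial.C (C (p i)) * Polynomial.X := by
  simp [tay]

lemma derivative_tay (p : σ → ℂ) (F : MvPolynomial σ ℂ) :
    Polynomial.derivative (tay p F) = tay p (dd p F) := by
  induction F using MvPolynomial.induction_on with
  | C a => simp [tay_C, dd_apply]
  | add f g hf hg => simp [hf, hg]
  | mul_X f i hf =>
    rw [dd_apply] at *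
    simp only [map_mul, Polynomial.derivative_mul, hf, Derivation.leibniz, smul_eq_mul, dirDer_X,
      map_add, tay_C, tay_X]
    simp
    ring

lemma iterate_derivative_tay (p : σ → ℂ) (j : ℕ) (F : MvPolynomial σ ℂ) :
    Polynomial.derivative^[j] (tay p F) = tay p ((dd p ^ j) F) := by
  induction j generalizing F with
  | zero => simp
  | succ j ih =>
    rw [Function.iterate_succ_apply, derivative_tay, ih, pow_succ, Module.End.mul_apply]

lemma tay_coeff_zero (p : σ → ℂ) (F : MvPolynomial σ ℂ) : (tay p F).coeff 0 = F := by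
  induction F using MvPolynomial.induction_on with
  | C a => simp [tay_C]
  | add f g hf hg => simp [hf, hg]
  | mul_X f i hf => simp [tay_X, Polynomial.mul_coeff_zero, hf]

lemma tay_ne_zero (p : σ → ℂ) {F : MvPolynomial σ ℂ} (h : F ≠ 0) : tay p F ≠ 0 := by
  intro h0
  apply h
  rw [← tay_coeff_zero p F, h0]
  simp

lemma factorial_smul_tay_coeff (p : σ → ℂ) (k : ℕ) (F : MvPolynomial σ ℂ) :
    (k.factorial : ℂ) • (tay p F).coeff k = (dd p ^ k) F := by
  have h := Polynomial.coeff_iterate_derivative (k := k) (tay p F) 0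
  rw [iterate_derivative_tay, tay_coeff_zero, zero_add, Nat.descFactorial_self] at h
  rw [h, Nat.cast_smul_eq_nsmul]

lemma tay_coeff_eq (p : σ → ℂ) (k : ℕ) (F : MvPolynomial σ ℂ) :
    (tay p F).coeff k = (k.factorial : ℂ)⁻¹ • (dd p ^ k) F := by
  rw [← factorial_smul_tay_coeff, smul_smul, inv_mul_cancel₀, one_smul]
  exact_mod_cast k.factorial_ne_zero

lemma tay_coeff_eq_zero (p : σ → ℂ) {j : ℕ} {F : MvPolynomial σ ℂ} (h : (dd p ^ j) F = 0)
    {k : ℕ} (hk : j ≤ k) : (tay p F).coeff k = 0 := by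
  obtain ⟨c, rfl⟩ : ∃ c, k = c + j := ⟨k - j, by omega⟩
  rw [tay_coeff_eq, pow_add, Module.End.mul_apply, h]
  simp

lemma tay_lin (p : σ → ℂ) (f : Module.Dual ℂ (σ → ℂ)) :
    tay p (lin f) = Polynomial.C (C (f p)) * Polynomial.X + Polynomial.C (lin f) := by
  rw [lin, map_sum, map_sum, ← dual_eq_sum f p, map_sum, map_sum, Finset.sum_mul,
    ← Finset.sum_add_distrib]
  apply Finset.sum_congr rfl
  intro i _
  simp only [map_mul, tay_C, tay_X]
  ring

lemma tay_lin_natDegree (p : σ → ℂ) (f : Module.Dual ℂ (σ → ℂ)) (h : f p ≠ 0) :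
    (tay p (lin f)).natDegree = 1 := by
  rw [tay_lin]
  apply Polynomial.natDegree_linear
  simpa using h

lemma lin_ne_zero (p : σ → ℂ) (f : Module.Dual ℂ (σ → ℂ)) (h : f p ≠ 0) : lin f ≠ 0 := by
  intro h0
  apply h
  rw [← eval_lin, h0, map_zero]

/-- If the expansion of `A` in direction `p` has degree `j`, no nonzero multiple of `A` is killed
by the `j`-th power of the derivative. -/
lemma dd_pow_mul_ne_zero (p : σ → ℂ) {A h : MvPolynomial σ ℂ} {j : ℕ} (hA : A ≠ 0)
    (hj : (tay p A).natDegree = j) (hh : h ≠ 0) : (dd p ^ j) (A * h) ≠ 0 := by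
  intro h0
  have hne : tay p (A * h) ≠ 0 := tay_ne_zero p (mul_ne_zero hA hh)
  have hdeg : j ≤ (tay p (A * h)).natDegree := by
    rw [map_mul, Polynomial.natDegree_mul (tay_ne_zero p hA) (tay_ne_zero p hh), hj]
    omega
  have := tay_coeff_eq_zero p h0 hdeg
  exact hne (Polynomial.leadingCoeff_eq_zero.mp this)

/-- A form of degree `d` killed by the `j`-th power of the derivative in direction `p` vanishes
to order `d + 1 - j` at every point of the line spanned by `p`. -/
lemma mem_ker_pow (p : σ → ℂ) (hp : p ≠ 0) (c : ℂ) {F : MvPolynomial σ ℂ} {d j : ℕ}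
    (hF : F.IsHomogeneous d) (h : (dd p ^ j) F = 0) :
    F ∈ (RingHom.ker (eval (c • p))) ^ (d + 1 - j) := by
  obtain ⟨f, hf⟩ : ∃ f : Module.Dual ℂ (σ → ℂ), f p = 1 := by
    obtain ⟨i, hi⟩ := Function.ne_iff.mp hp
    refine ⟨(p i)⁻¹ • LinearMap.proj i, ?_⟩
    simp only [LinearMap.smul_apply, LinearMap.coe_proj, Function.eval, smul_eq_mul]
    exact inv_mul_cancel₀ hi
  set y := lin f with hy
  set x : σ → MvPolynomial σ ℂ := fun i => X i - C (p i) * y with hx
  set I : Ideal (MvPolynomial σ ℂ) := RingHom.ker (eval (c • p)) with hI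
  have hxI : Ideal.span (Set.range x) ≤ I := by
    rw [Ideal.span_le]
    rintro _ ⟨i, rfl⟩
    simp [hI, hx, hy, RingHom.mem_ker, eval_lin, hf, mul_comm]
  have hπ : ∀ (G : MvPolynomial σ ℂ) (e : ℕ), G.IsHomogeneous e → aeval x G ∈ I ^ e := by
    intro G e hG
    apply Ideal.pow_right_mono hxI e
    rw [Ideal.mem_span_pow_iff_exists_isHomogeneous]
    refine ⟨map C G, hG.map _, ?_⟩
    rw [eval_map, aeval_def]
    rfl
  have hrec : ∀ G : MvPolynomial σ ℂ,
      Polynomial.eval₂ (aeval x : MvPolynomial σ ℂ →ₐ[ℂ] MvPolynomial σ ℂ).toRingHom y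
        (tay p G) = G := by
    intro G
    induction G using MvPolynomial.induction_on with
    | C a => simp [tay_C]
    | add f g hf hg => simp only [map_add, Polynomial.eval₂_add, hf, hg]
    | mul_X f i hf =>
      rw [map_mul, Polynomial.eval₂_mul, hf, tay_X]
      simp [hx]
  rw [← hrec F, Polynomial.eval₂_eq_sum_range]
  apply Ideal.sum_mem
  intro k _
  apply Ideal.mul_mem_right
  by_cases hk : j ≤ k
  · rw [tay_coeff_eq_zero p h hk]
    simp
  · by_cases hkd : d < k
    · rw [tay_coeff_eq, dd_pow_eq_zero p hF hkd]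
      simp
    · have h1 : ((tay p F).coeff k).IsHomogeneous (d - k) := by
        rw [tay_coeff_eq]
        exact (homogeneousSubmodule σ ℂ (d - k)).smul_mem _ (dd_pow_hom p hF k)
      exact Ideal.pow_le_pow_right (by omega) (hπ _ _ h1)

lemma finrank_homogeneous (d : ℕ) :
    Module.finrank ℂ (homogeneousSubmodule σ ℂ d) = (Fintype.card σ + d - 1).choose d := by
  have h1 : homogeneousSubmodule σ ℂ d
      = restrictSupport ℂ ((Finset.univ.finsuppAntidiag d : Finset (σ →₀ ℕ)) : Set (σ →₀ ℕ)) := by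
    rw [homogeneousSubmodule_eq_finsupp_supported, restrictSupport]
    congr 1
    ext s
    simp [Finsupp.degree_eq_sum]
  rw [h1, Module.finrank_eq_card_basis (basisRestrictSupport ℂ _)]
  simp [Finset.card_finsuppAntidiag_nat_eq_choose]

end Pool.Agent.Lib.MP_efa40c_ag
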