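import Pool.Agent.Lib.MP_efa40c_ag.Curve

/-!
The dimension count for forms of degree 38 with nine points of multiplicity 22 in projective
four-space.
-/

namespace Pool.Agent.Lib.MP_efa40c_ag

open MvPolynomial

set_option linter.unusedSectionVars false
set_option linter.unusedSimpArgs false
set_option linter.unusedVariables false

/-- Forms of degree `d` in five variables. -/
abbrev V (d : ℕ) : Submodule ℂ (MvPolynomial (Fin 5) ℂ) := homogeneousSubmodule (Fin 5) ℂ d

instance (d : ℕ) : Module.Finite ℂ (V d) :=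
  Module.Finite.iff_fg.mpr (homogeneousSubmodule_fg (Fin 5) ℂ d)

/-- The seventeenth power of the directional derivative between spaces of forms. -/
noncomputable def D17 (q : Fin 5 → ℂ) (a : ℕ) : V (a + 17) →ₗ[ℂ] V a :=
  (dd q ^ 17).restrict (fun x hx => by
    have := dd_pow_hom q ((mem_homogeneousSubmodule _ _).mp hx) 17
    rwa [Nat.add_sub_cancel] at this)

lemma D17_coe (q : Fin 5 → ℂ) (a : ℕ) (F : V (a + 17)) :
    (D17 q a F : MvPolynomial (Fin 5) ℂ) = (dd q ^ 17) (F : MvPolynomial (Fin 5) ℂ) := rfl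

lemma D17_comm (q r : Fin 5 → ℂ) (F : V (4 + 17 + 17)) :
    D17 q 4 (D17 r (4 + 17) F) = D17 r 4 (D17 q (4 + 17) F) := by
  apply Subtype.ext
  simp only [D17_coe]
  exact dd_pow_comm _ _ _ _ _

lemma dd_pow_lin_pow_mul (q : Fin 5 → ℂ) (f : Module.Dual ℂ (Fin 5 → ℂ)) (hf : f q = 0) (e j : ℕ)
    (B : MvPolynomial (Fin 5) ℂ) : (dd q ^ j) (lin f ^ e * B) = lin f ^ e * (dd q ^ j) B := by
  apply dd_pow_mul_of_zero
  apply dd_pow_zero_of_zero
  rw [dd_lin, hf, map_zero]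

lemma Hyp.sep {p : Fin 9 → Fin 5 → ℂ} (h : Hyp p) (k : Fin 9) (g : V 4) :
    ∃ G : V (4 + 17), D17 (p k) 4 G = g ∧ ∀ l, l ≠ k → D17 (p l) 4 G = 0 := by
  obtain ⟨S, hS, hS4⟩ := Finset.exists_subset_card_eq (s := Finset.univ.erase k) (n := 4)
    (by simp)
  have hkS : k ∉ S := fun hk => by simpa using hS hk
  obtain ⟨f1, hf1, hf10⟩ := h S hS4.le k hkS
  obtain ⟨f2, hf2, hf20⟩ := h (Finset.univ.erase k \ S) (by
    rw [Finset.card_sdiff_of_subset hS, hS4]; simp) k (by simp)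
  set N : MvPolynomial (Fin 5) ℂ := lin f1 ^ 12 * lin f2 ^ 5 with hN
  have hNh : N.IsHomogeneous 17 := ((lin_hom f1).pow 12).mul ((lin_hom f2).pow 5)
  have hN0 : N ≠ 0 :=
    mul_ne_zero (pow_ne_zero _ (lin_ne_zero _ _ hf1)) (pow_ne_zero _ (lin_ne_zero _ _ hf2))
  have hNd : (tay (p k) N).natDegree = 17 := by
    have h1 := tay_ne_zero (p k) (lin_ne_zero _ _ hf1)
    have h2 := tay_ne_zero (p k) (lin_ne_zero _ _ hf2)
    rw [hN, map_mul, map_pow, map_pow,
      Polynomial.natDegree_mul (pow_ne_zero _ h1) (pow_ne_zero _ h2), Polynomial.natDegree_pow,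
      Polynomial.natDegree_pow, tay_lin_natDegree _ _ hf1, tay_lin_natDegree _ _ hf2]
  let mu : V 4 →ₗ[ℂ] V (4 + 17) := (LinearMap.mulLeft ℂ N).restrict (fun x hx => by
    have := hNh.mul ((mem_homogeneousSubmodule _ _).mp hx)
    exact this)
  have hmu : ∀ x : V 4, (mu x : MvPolynomial (Fin 5) ℂ) = N * x := fun x => rfl
  have hinj : Function.Injective (D17 (p k) 4 ∘ₗ mu) := by
    rw [← LinearMap.ker_eq_bot, LinearMap.ker_eq_bot']
    intro x hx
    by_contra hx0
    have h1 : (x : MvPolynomial (Fin 5) ℂ) ≠ 0 := fun h0 => hx0 (Subtype.ext h0)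
    apply dd_pow_mul_ne_zero (p k) hN0 hNd h1
    have := congrArg Subtype.val hx
    rw [LinearMap.comp_apply, D17_coe, hmu] at this
    exact this
  obtain ⟨x, hx⟩ := LinearMap.injective_iff_surjective.mp hinj g
  refine ⟨mu x, hx, ?_⟩
  intro l hl
  apply Subtype.ext
  rw [D17_coe, hmu]
  have hxh : (x : MvPolynomial (Fin 5) ℂ).IsHomogeneous 4 := x.2
  by_cases hlS : l ∈ S
  · have : N * x = lin f1 ^ 5 * (lin f1 ^ 7 * lin f2 ^ 5 * x) := by rw [hN]; ring
    rw [this, dd_pow_lin_pow_mul _ _ (hf10 l hlS),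
      dd_pow_eq_zero _ ((((lin_hom f1).pow 7).mul ((lin_hom f2).pow 5)).mul hxh) (by norm_num)]
    simp
  · have : N * x = lin f2 ^ 5 * (lin f1 ^ 12 * x) := by rw [hN]; ring
    rw [this, dd_pow_lin_pow_mul _ _ (hf20 l (by simp [hl, hlS])),
      dd_pow_eq_zero _ (((lin_hom f1).pow 12).mul hxh) (by norm_num)]
    simp

/-- Pairs of indices. -/
abbrev Pairs : Type := {x : Fin 9 × Fin 9 // x.1 < x.2}

/-- First map of the complex. -/
noncomputable def Phi (p : Fin 9 → Fin 5 → ℂ) : V (4 + 17 + 17) →ₗ[ℂ] (Fin 9 → V (4 + 17)) :=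
  LinearMap.pi (fun i => D17 (p i) (4 + 17))

/-- Second map of the complex. -/
noncomputable def Psi (p : Fin 9 → Fin 5 → ℂ) : (Fin 9 → V (4 + 17)) →ₗ[ℂ] (Pairs → V 4) :=
  LinearMap.pi (fun x => D17 (p x.1.2) 4 ∘ₗ LinearMap.proj x.1.1
    - D17 (p x.1.1) 4 ∘ₗ LinearMap.proj x.1.2)

lemma Phi_apply (p : Fin 9 → Fin 5 → ℂ) (F : V (4 + 17 + 17)) (i : Fin 9) :
    Phi p F i = D17 (p i) (4 + 17) F := rfl

lemma Psi_apply (p : Fin 9 → Fin 5 → ℂ) (G : Fin 9 → V (4 + 17)) (x : Pairs) :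
    Psi p G x = D17 (p x.1.2) 4 (G x.1.1) - D17 (p x.1.1) 4 (G x.1.2) := rfl

lemma range_le_ker (p : Fin 9 → Fin 5 → ℂ) : LinearMap.range (Phi p) ≤ LinearMap.ker (Psi p) := by
  rintro _ ⟨F, rfl⟩
  rw [LinearMap.mem_ker]
  funext x
  rw [Psi_apply, Phi_apply, Phi_apply, D17_comm, sub_self]
  rfl

lemma Hyp.psi_surj {p : Fin 9 → Fin 5 → ℂ} (h : Hyp p) : Function.Surjective (Psi p) := by
  intro τ
  choose G hG hG0 using h.sep
  refine ⟨fun i => ∑ k, if hik : i < k then G k (τ ⟨(i, k), hik⟩) else 0, ?_⟩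
  funext ⟨⟨i, k⟩, hik⟩
  rw [Psi_apply]
  simp only [map_sum]
  rw [Finset.sum_eq_single k, Finset.sum_eq_zero]
  · have hik' : i < k := hik
    rw [dif_pos hik', hG, sub_zero]
  · intro l _
    split_ifs with hkl
    · apply hG0
      have hik' : i < k := hik
      exact (hik'.trans hkl).ne
    · simp
  · intro l _ hl
    split_ifs with hil
    · exact hG0 _ _ _ hl.symm
    · simp
  · simp

lemma simple_root {P : Polynomial ℂ} (hP : P ≠ 0) (hd : P.natDegree ≤ 4) {a : Fin 7 → ℂ}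
    (ha : Function.Injective a) (S : Finset (Fin 7)) (hS : S.card = 3) (h0 : (0 : Fin 7) ∉ S)
    (hr : ∀ l ∈ S, P.eval (a l) = 0) (hr0 : P.eval (a 0) = 0) :
    ∃ g, P = (Polynomial.X - Polynomial.C (a 0)) * g ∧
      ¬ (Polynomial.X - Polynomial.C (a 0)) ∣ g := by
  obtain ⟨g, hg⟩ := Polynomial.dvd_iff_isRoot.mpr hr0
  refine ⟨g, hg, ?_⟩
  intro hdv
  have := sum_le_natDegree hP ha (fun l => if l = 0 then 2 else if l ∈ S then 1 else 0) (by
    intro l
    by_cases hl : l = 0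
    · subst hl
      simp only [if_true]
      rw [hg, pow_two]
      exact mul_dvd_mul_left _ hdv
    · by_cases hlS : l ∈ S
      · simp only [hl, hlS, if_true, if_false, pow_one]
        exact Polynomial.dvd_iff_isRoot.mpr (hr l hlS)
      · simp [hl, hlS])
  rw [← Finset.add_sum_erase _ _ (Finset.mem_univ (0 : Fin 7))] at this
  rw [Finset.sum_congr rfl (g := fun l => if l ∈ S then 1 else 0)
    (fun l hl => by simp [(Finset.mem_erase.mp hl).1])] at this
  rw [Finset.sum_ite_mem, Finset.sum_const, smul_eq_mul, mul_one,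
    Finset.inter_eq_right.mpr (fun l hl => by
      simp only [Finset.mem_erase, Finset.mem_univ, and_true]
      rintro rfl
      exact h0 hl), hS] at this
  simp at this
  omega

lemma Hyp.range_ne_ker {p : Fin 9 → Fin 5 → ℂ} (h : Hyp p) :
    LinearMap.range (Phi p) ≠ LinearMap.ker (Psi p) := by
  obtain ⟨γ, a, c, hγ, ha, hc, hpt⟩ := h.curve
  obtain ⟨fm, hfm, -⟩ := h ∅ (by simp) 0 (by simp)
  obtain ⟨fa, hfa, hfa0⟩ := h {0, 1, 2, 3} (by decide) 4 (by decide)
  obtain ⟨fb, hfb, hfb0⟩ := h {0, 4, 5, 6} (by decide) 1 (by decide)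
  set F0 : MvPolynomial (Fin 5) ℂ := lin fm ^ 17 * lin fa ^ 5 * lin fb ^ 16 with hF0
  have hF0h : F0.IsHomogeneous (4 + 17 + 17) :=
    (((lin_hom fm).pow 17).mul ((lin_hom fa).pow 5)).mul ((lin_hom fb).pow 16)
  set F1 : V (4 + 17 + 17) := ⟨F0, hF0h⟩ with hF1
  set G0 : V (4 + 17) := D17 (p 0) (4 + 17) F1 with hG0
  obtain ⟨G7, hG7, hG70⟩ := h.sep 0 (D17 (p 7) 4 G0)
  obtain ⟨G8, hG8, hG80⟩ := h.sep 0 (D17 (p 8) 4 G0)
  have hA : ∀ l ∈ ({0, 1, 2, 3} : Finset (Fin 9)), D17 (p l) 4 G0 = 0 := by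
    intro l hl
    apply Subtype.ext
    rw [hG0, D17_coe, D17_coe]
    change (dd (p l) ^ 17) ((dd (p 0) ^ 17) F0) = 0
    have : F0 = lin fa ^ 5 * (lin fm ^ 17 * lin fb ^ 16) := by rw [hF0]; ring
    rw [this, dd_pow_lin_pow_mul _ _ (hfa0 0 (by decide)), dd_pow_lin_pow_mul _ _ (hfa0 l hl),
      dd_pow_eq_zero _ (dd_pow_hom (p 0) (((lin_hom fm).pow 17).mul ((lin_hom fb).pow 16)) 17)
        (by norm_num), mul_zero]
  have hB : ∀ l ∈ ({0, 4, 5, 6} : Finset (Fin 9)), D17 (p l) 4 G0 = 0 := by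
    intro l hl
    apply Subtype.ext
    rw [hG0, D17_coe, D17_coe]
    change (dd (p l) ^ 17) ((dd (p 0) ^ 17) F0) = 0
    have : F0 = lin fb ^ 16 * (lin fm ^ 17 * lin fa ^ 5) := by rw [hF0]; ring
    rw [this, dd_pow_lin_pow_mul _ _ (hfb0 0 (by decide)), dd_pow_lin_pow_mul _ _ (hfb0 l hl),
      dd_pow_eq_zero _ (dd_pow_hom (p 0) (((lin_hom fm).pow 17).mul ((lin_hom fa).pow 5)) 17)
        (by norm_num), mul_zero]
  intro heq
  have hker : (![G0, 0, 0, 0, 0, 0, 0, G7, G8] : Fin 9 → V (4 + 17)) ∈ LinearMap.ker (Psi p) := by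
    rw [LinearMap.mem_ker]
    funext ⟨⟨i, k⟩, hik⟩
    rw [Psi_apply]
    have h1 := hA 1 (by decide)
    have h2 := hA 2 (by decide)
    have h3 := hA 3 (by decide)
    have h4 := hB 4 (by decide)
    have h5 := hB 5 (by decide)
    have h6 := hB 6 (by decide)
    fin_cases i <;> fin_cases k <;>
      first
      | (exfalso; revert hik; decide)
      | simp [h1, h2, h3, h4, h5, h6, hG7, hG8, hG70, hG80]
  rw [← heq] at hker
  obtain ⟨F, hF⟩ := hker
  have hFh : (F : MvPolynomial (Fin 5) ℂ).IsHomogeneous (4 + 17 + 17) := F.2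
  have hdiv : ∀ (l : Fin 7) (E : MvPolynomial (Fin 5) ℂ), E.IsHomogeneous (4 + 17 + 17) →
      (dd (p (emb7 l)) ^ 17) E = 0 → (Polynomial.X - Polynomial.C (a l)) ^ 22 ∣ aeval γ E := by
    intro l E hE hE0
    apply dvd_aeval_of_mem
    rw [hpt l]
    have h2 := mem_ker_pow _ (h.ne_zero _) (c l) hE hE0
    have h3 : 4 + 17 + 17 + 1 - 17 = 22 := by norm_num
    rw [h3] at h2
    exact h2
  have hl0 : ∀ l : Fin 7, l ≠ 0 →
      (Polynomial.X - Polynomial.C (a l)) ^ 22 ∣ aeval γ (F : MvPolynomial (Fin 5) ℂ) := by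
    intro l hl
    apply hdiv l _ hFh
    have h1 := congrArg Subtype.val (congrFun hF (emb7 l))
    rw [Phi_apply, D17_coe] at h1
    rw [h1]
    fin_cases l
    · exact absurd rfl hl
    all_goals rfl
  have h00 : (Polynomial.X - Polynomial.C (a 0)) ^ 22
      ∣ aeval γ ((F : MvPolynomial (Fin 5) ℂ) - F0) := by
    apply hdiv 0 _ (hFh.sub hF0h)
    have h1 := congrArg Subtype.val (congrFun hF 0)
    rw [Phi_apply, D17_coe] at h1
    have h2 : (![G0, 0, 0, 0, 0, 0, 0, G7, G8] : Fin 9 → V (4 + 17)) 0 = G0 := rfl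
    have h3 : emb7 0 = 0 := rfl
    rw [h2, hG0, D17_coe] at h1
    rw [map_sub, h3, h1, hF1, sub_self]
  have hev : ∀ (f : Module.Dual ℂ (Fin 5 → ℂ)) (l : Fin 7),
      (aeval γ (lin f)).eval (a l) = c l * f (p (emb7 l)) := by
    intro f l
    rw [eval_aeval_curve, hpt l, eval_lin, map_smul, smul_eq_mul]
  have hdeg : ∀ f : Module.Dual ℂ (Fin 5 → ℂ), (aeval γ (lin f)).natDegree ≤ 4 :=
    fun f => natDegree_aeval_le hγ (lin_hom f)
  obtain ⟨ga, hga, hga0⟩ := simple_root (P := aeval γ (lin fa)) (by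
      intro h0
      have := hev fa 4
      rw [h0, Polynomial.eval_zero] at this
      exact mul_ne_zero (hc 4) hfa this.symm) (hdeg fa) ha {1, 2, 3} (by decide) (by decide) (by
      intro l hl
      rw [hev, hfa0 (emb7 l) (by revert l; decide), mul_zero]) (by
      rw [hev, hfa0 (emb7 0) (by decide), mul_zero])
  obtain ⟨gb, hgb, hgb0⟩ := simple_root (P := aeval γ (lin fb)) (by
      intro h0
      have := hev fb 1
      rw [h0, Polynomial.eval_zero] at this
      exact mul_ne_zero (hc 1) hfb this.symm) (hdeg fb) ha {4, 5, 6} (by decide) (by decide) (by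
      intro l hl
      rw [hev, hfb0 (emb7 l) (by revert l; decide), mul_zero]) (by
      rw [hev, hfb0 (emb7 0) (by decide), mul_zero])
  have hgm0 : ¬ (Polynomial.X - Polynomial.C (a 0)) ∣ aeval γ (lin fm) := by
    rw [Polynomial.dvd_iff_isRoot, Polynomial.IsRoot, hev]
    exact mul_ne_zero (hc 0) hfm
  set π : Polynomial ℂ := Polynomial.X - Polynomial.C (a 0) with hπ
  have hprime : Prime π := Polynomial.prime_X_sub_C _
  have hΓ0 : aeval γ F0 = π ^ 21 * (aeval γ (lin fm) ^ 17 * ga ^ 5 * gb ^ 16) := by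
    rw [hF0, map_mul, map_mul, map_pow, map_pow, map_pow, hga, hgb]
    ring
  have hnd : ¬ π ^ 22 ∣ aeval γ F0 := by
    intro hd
    rw [hΓ0, pow_succ] at hd
    have h1 := (mul_dvd_mul_iff_left (pow_ne_zero 21 hprime.ne_zero)).mp hd
    rcases hprime.dvd_or_dvd h1 with h2 | h2
    · rcases hprime.dvd_or_dvd h2 with h3 | h3
      · exact hgm0 (hprime.dvd_of_dvd_pow h3)
      · exact hga0 (hprime.dvd_of_dvd_pow h3)
    · exact hgb0 (hprime.dvd_of_dvd_pow h2)
  rw [map_sub] at h00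
  have hP0 : aeval γ (F : MvPolynomial (Fin 5) ℂ) ≠ 0 := by
    intro h0
    rw [h0, zero_sub, dvd_neg] at h00
    exact hnd h00
  have h21 : π ^ 21 ∣ aeval γ (F : MvPolynomial (Fin 5) ℂ) := by
    have h1 : π ^ 21 ∣ aeval γ F0 := ⟨_, hΓ0⟩
    have h2 := (pow_dvd_pow π (by norm_num : 21 ≤ 22)).trans h00
    have := dvd_add h2 h1
    rwa [sub_add_cancel] at this
  have hsum := sum_le_natDegree hP0 ha (fun l => if l = 0 then 21 else 22) (by
    intro l
    by_cases hl : l = 0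
    · subst hl
      simpa using h21
    · simpa [hl] using hl0 l hl)
  have hle := natDegree_aeval_le hγ hFh
  have h153 : ∑ l : Fin 7, (if l = 0 then 21 else 22) = 153 := by decide
  omega

lemma Hyp.finrank_ker {p : Fin 9 → Fin 5 → ℂ} (h : Hyp p) :
    601 ≤ Module.finrank ℂ (LinearMap.ker (Phi p)) := by
  have h1 := LinearMap.finrank_range_add_finrank_ker (Phi p)
  have h2 := LinearMap.finrank_range_add_finrank_ker (Psi p)
  have h3 : Module.finrank ℂ (LinearMap.range (Phi p)) < Module.finrank ℂ (LinearMap.ker (Psi p)) :=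
    Submodule.finrank_lt_finrank_of_lt (lt_of_le_of_ne (range_le_ker p) h.range_ne_ker)
  rw [LinearMap.range_eq_top.mpr h.psi_surj, finrank_top, Module.finrank_pi_fintype,
    Module.finrank_pi_fintype] at h2
  simp only [finrank_homogeneous, Finset.sum_const, Finset.card_univ, smul_eq_mul,
    Fintype.card_fin] at h1 h2
  have hc : Fintype.card Pairs = 36 := by decide
  have c1 : (5 + (4 + 17 + 17) - 1).choose (4 + 17 + 17) = 111930 := by decide +kernel
  have c2 : (5 + (4 + 17) - 1).choose (4 + 17) = 12650 := by decide +kernel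
  have c3 : (5 + 4 - 1).choose 4 = 70 := by decide +kernel
  rw [hc, c2, c3] at h2
  rw [c1] at h1
  omega

/-- Main estimate: any space of forms containing all forms of degree 38 that vanish to order 22 at
the nine points has dimension at least 601. -/
lemma Hyp.finrank_ge {p : Fin 9 → Fin 5 → ℂ} (h : Hyp p) (L : Submodule ℂ (MvPolynomial (Fin 5) ℂ))
    (hLV : L ≤ homogeneousSubmodule (Fin 5) ℂ 38)
    (hL : ∀ F : MvPolynomial (Fin 5) ℂ, F.IsHomogeneous 38 →
      (∀ i, F ∈ (RingHom.ker (eval (p i))) ^ 22) → F ∈ L) :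
    601 ≤ Module.finrank ℂ L := by
  have : Module.Finite ℂ L := Submodule.finiteDimensional_of_le hLV
  refine le_trans h.finrank_ker ?_
  rw [← Submodule.finrank_map_subtype_eq]
  apply Submodule.finrank_mono
  intro G hG
  obtain ⟨F, hF, hFG⟩ := Submodule.mem_map.mp hG
  have hFh : (F : MvPolynomial (Fin 5) ℂ).IsHomogeneous 38 := F.2
  rw [← hFG, Submodule.subtype_apply]
  apply hL _ hFh
  intro i
  have h1 := congrArg Subtype.val (congrFun (LinearMap.mem_ker.mp hF) i)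
  rw [Phi_apply, D17_coe] at h1
  have h2 := mem_ker_pow (p i) (h.ne_zero i) 1 (j := 17) hFh h1
  have h3 : 38 + 1 - 17 = 22 := by norm_num
  rw [one_smul, h3] at h2
  exact h2

end Pool.Agent.Lib.MP_efa40c_ag
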