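import Pool.Agent.Lib.MP_efa40c_ag.Basic

/-!
The rational normal quartic through seven points of projective four-space in linearly general
position, and divisibility of restrictions of forms to it.
-/

namespace Pool.Agent.Lib.MP_efa40c_ag

open MvPolynomial

set_option linter.unusedSectionVars false
set_option linter.unusedSimpArgs false
set_option linter.unusedVariables false

/-- Through any four of the nine points there is a hyperplane missing any other given point. -/
def Hyp (p : Fin 9 → Fin 5 → ℂ) : Prop :=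
  ∀ S : Finset (Fin 9), S.card ≤ 4 → ∀ k, k ∉ S →
    ∃ f : Module.Dual ℂ (Fin 5 → ℂ), f (p k) ≠ 0 ∧ ∀ l ∈ S, f (p l) = 0

lemma Hyp.ne_zero {p : Fin 9 → Fin 5 → ℂ} (h : Hyp p) (k : Fin 9) : p k ≠ 0 := by
  obtain ⟨f, hf, -⟩ := h ∅ (by simp) k (by simp)
  intro h0
  apply hf
  rw [h0, map_zero]

/-- The first five indices. -/
def emb (i : Fin 5) : Fin 9 := Fin.castLE (by norm_num) i

lemma emb_inj : Function.Injective emb := by decide

lemma Hyp.coord {p : Fin 9 → Fin 5 → ℂ} (h : Hyp p) (w : Fin 5 → ℂ) :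
    ∃ u : Fin 5 → ℂ, ∑ i, u i • p (emb i) = w := by
  have hli : LinearIndependent ℂ (fun i => p (emb i)) := by
    rw [Fintype.linearIndependent_iff]
    intro g hg k
    obtain ⟨f, hf, hf0⟩ := h ((Finset.univ.erase k).image emb)
      (le_trans Finset.card_image_le (by simp)) (emb k) (by
        simp only [Finset.mem_image, Finset.mem_erase, not_exists, not_and, and_imp]
        intro x hx _ hxe
        exact hx (emb_inj hxe))
    have := congrArg f hg
    rw [map_sum, map_zero, Finset.sum_eq_single k] at this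
    · simpa [hf] using this
    · intro b _ hb
      rw [map_smul, hf0 _ (Finset.mem_image_of_mem _ (by simp [hb])), smul_zero]
    · simp
  have htop := hli.span_eq_top_of_card_eq_finrank' (by simp)
  have hw : w ∈ Submodule.span ℂ (Set.range (fun i => p (emb i))) := by rw [htop]; trivial
  exact (Submodule.mem_span_range_iff_exists_fun ℂ).mp hw

lemma Hyp.coord_ne_zero {p : Fin 9 → Fin 5 → ℂ} (h : Hyp p) {k : Fin 9} (hk : ∀ i, emb i ≠ k)
    {u : Fin 5 → ℂ} (hu : ∑ i, u i • p (emb i) = p k) (i : Fin 5) : u i ≠ 0 := by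
  obtain ⟨f, hf, hf0⟩ := h ((Finset.univ.erase i).image emb)
    (le_trans Finset.card_image_le (by simp)) k (by
      simp only [Finset.mem_image, not_exists, not_and]
      intro x _
      exact hk x)
  intro hi
  apply hf
  rw [← hu, map_sum]
  apply Finset.sum_eq_zero
  intro b _
  by_cases hb : b = i
  · rw [hb, hi]; simp
  · rw [map_smul, hf0 _ (Finset.mem_image_of_mem _ (by simp [hb])), smul_zero]

lemma Hyp.coord_det {p : Fin 9 → Fin 5 → ℂ} (h : Hyp p) {k l : Fin 9} (hk : ∀ i, emb i ≠ k)
    (hl : ∀ i, emb i ≠ l) (hkl : l ≠ k)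
    {u v : Fin 5 → ℂ} (hu : ∑ i, u i • p (emb i) = p k) (hv : ∑ i, v i • p (emb i) = p l)
    {i j : Fin 5} (hij : i ≠ j) : u i * v j ≠ u j * v i := by
  obtain ⟨f, hf, hf0⟩ := h (insert k (((Finset.univ.erase i).erase j).image emb))
    (le_trans (Finset.card_insert_le _ _) (by
      have h1 : (((Finset.univ.erase i).erase j).image emb).card ≤ 3 := by
        refine le_trans Finset.card_image_le ?_
        rw [Finset.card_erase_of_mem (by simp [hij.symm]), Finset.card_erase_of_mem (by simp)]
        simp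
      omega)) l (by
      simp only [Finset.mem_insert, Finset.mem_image, not_or, not_exists, not_and]
      exact ⟨hkl, fun x _ => hl x⟩)
  have key : ∀ w : Fin 5 → ℂ, f (∑ a, w a • p (emb a))
      = w i * f (p (emb i)) + w j * f (p (emb j)) := by
    intro w
    rw [map_sum, Finset.sum_eq_add i j hij]
    · simp
    · intro c _ hc
      rw [map_smul, hf0 _ (Finset.mem_insert_of_mem (Finset.mem_image_of_mem _ (by simp [hc]))),
        smul_zero]
    · simp
    · simp
  have h1 := key u
  have h2 := key v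
  rw [hu, hf0 k (Finset.mem_insert_self _ _)] at h1
  rw [hv] at h2
  intro he
  have hui := h.coord_ne_zero hk hu i
  apply mul_ne_zero hui hf
  rw [h2]
  linear_combination (-(v i)) * h1 + f (p (emb j)) * he

/-- The seven indices of points on the curve. -/
def emb7 (i : Fin 7) : Fin 9 := Fin.castLE (by norm_num) i

/-- A rational quartic curve through the first seven points. -/
lemma Hyp.curve {p : Fin 9 → Fin 5 → ℂ} (h : Hyp p) :
    ∃ (γ : Fin 5 → Polynomial ℂ) (a c : Fin 7 → ℂ), (∀ s, (γ s).natDegree ≤ 4) ∧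
      Function.Injective a ∧ (∀ l, c l ≠ 0) ∧
      ∀ l, (fun s => (γ s).eval (a l)) = c l • p (emb7 l) := by
  obtain ⟨u, hu⟩ := h.coord (p 5)
  obtain ⟨v, hv⟩ := h.coord (p 6)
  have h5 : ∀ i, emb i ≠ 5 := by decide
  have h6 : ∀ i, emb i ≠ 6 := by decide
  have hu0 := h.coord_ne_zero h5 hu
  have hv0 := h.coord_ne_zero h6 hv
  have huv : ∀ i j, i ≠ j → u i * v j ≠ u j * v i :=
    fun i j hij => h.coord_det h5 h6 (by decide) hu hv hij
  obtain ⟨lam, hlam⟩ := Infinite.exists_notMem_finset
    (insert (0 : ℂ) (Finset.univ.image (fun i => u i / v i)))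
  have hlam0 : lam ≠ 0 := by
    intro h0; apply hlam; simp [h0]
  have hden : ∀ i, lam * v i - u i ≠ 0 := by
    intro i h0
    apply hlam
    apply Finset.mem_insert_of_mem
    rw [Finset.mem_image]
    refine ⟨i, by simp, ?_⟩
    have := hv0 i
    field_simp
    linear_combination -h0
  set b : Fin 5 → ℂ := fun i => lam * v i / (lam * v i - u i) with hb
  have hb0 : ∀ i, b i ≠ 0 := fun i => div_ne_zero (mul_ne_zero hlam0 (hv0 i)) (hden i)
  have hb1 : ∀ i, u i * b i = -lam * v i * (1 - b i) := by
    intro i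
    have := hden i
    simp only [hb]
    field_simp
    ring
  have hb1' : ∀ i, 1 - b i ≠ 0 := by
    intro i h0
    have := hb1 i
    rw [h0, mul_zero] at this
    exact mul_ne_zero (hu0 i) (hb0 i) this
  have hbinj : Function.Injective b := by
    intro i j hij
    by_contra hne
    apply huv i j hne
    have h1 := hden i
    have h2 := hden j
    simp only [hb] at hij
    rw [div_eq_div_iff h1 h2] at hij
    have : lam * (u i * v j - u j * v i) = 0 := by linear_combination hij
    rcases mul_eq_zero.mp this with h3 | h3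
    · exact absurd h3 hlam0
    · exact sub_eq_zero.mp h3
  set q : Fin 5 → Polynomial ℂ :=
    fun i => ∏ k ∈ Finset.univ.erase i, (Polynomial.X - Polynomial.C (b k)) with hq
  have hqdeg : ∀ i, (q i).natDegree = 4 := by
    intro i
    simp only [hq]
    rw [Polynomial.natDegree_prod_of_monic _ _ (fun k _ => Polynomial.monic_X_sub_C _)]
    simp
  have hev : ∀ t : ℂ, (fun s => (∑ i, Polynomial.C (u i * b i * p (emb i) s) * q i).eval t)
      = ∑ i, (u i * b i * ∏ k ∈ Finset.univ.erase i, (t - b k)) • p (emb i) := by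
    intro t
    funext s
    simp only [Polynomial.eval_finsetSum, Polynomial.eval_mul, Polynomial.eval_C, hq,
      Polynomial.eval_prod, Polynomial.eval_sub, Polynomial.eval_X, Finset.sum_apply,
      Pi.smul_apply, smul_eq_mul]
    apply Finset.sum_congr rfl
    intro i _
    ring
  refine ⟨fun s => ∑ i, Polynomial.C (u i * b i * p (emb i) s) * q i,
    ![b 0, b 1, b 2, b 3, b 4, 0, 1],
    ![u 0 * b 0 * ∏ k ∈ Finset.univ.erase 0, (b 0 - b k),
      u 1 * b 1 * ∏ k ∈ Finset.univ.erase 1, (b 1 - b k),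
      u 2 * b 2 * ∏ k ∈ Finset.univ.erase 2, (b 2 - b k),
      u 3 * b 3 * ∏ k ∈ Finset.univ.erase 3, (b 3 - b k),
      u 4 * b 4 * ∏ k ∈ Finset.univ.erase 4, (b 4 - b k),
      ∏ k, b k, -lam * ∏ k, (1 - b k)], ?_, ?_, ?_, ?_⟩
  · intro s
    apply Polynomial.natDegree_sum_le_of_forall_le
    intro i _
    exact le_trans (Polynomial.natDegree_C_mul_le _ _) (hqdeg i).le
  · have hne : ∀ i j, i ≠ j → b i ≠ b j := fun i j hij hb => hij (hbinj hb)
    have hb1'' : ∀ i, b i ≠ 1 := fun i h0 => hb1' i (by rw [h0, sub_self])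
    intro i j hij
    fin_cases i <;> fin_cases j <;>
      first
      | rfl
      | (exfalso; simp at hij; done)
      | (exfalso; exact hne _ _ (by decide) hij)
      | (exfalso; exact hb0 _ hij)
      | (exfalso; exact hb0 _ hij.symm)
      | (exfalso; exact hb1'' _ hij)
      | (exfalso; exact hb1'' _ hij.symm)
  · have hpr : ∀ i, u i * b i * ∏ k ∈ Finset.univ.erase i, (b i - b k) ≠ 0 := by
      intro i
      refine mul_ne_zero (mul_ne_zero (hu0 i) (hb0 i)) ?_
      rw [Finset.prod_ne_zero_iff]
      intro k hk h0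
      exact (Finset.mem_erase.mp hk).1 (hbinj (sub_eq_zero.mp h0)).symm
    intro l
    fin_cases l
    · exact hpr 0
    · exact hpr 1
    · exact hpr 2
    · exact hpr 3
    · exact hpr 4
    · change ∏ k, b k ≠ 0
      exact Finset.prod_ne_zero_iff.mpr (fun k _ => hb0 k)
    · change -lam * ∏ k, (1 - b k) ≠ 0
      exact mul_ne_zero (neg_ne_zero.mpr hlam0) (Finset.prod_ne_zero_iff.mpr (fun k _ => hb1' k))
  · have hbi : ∀ j, (fun s => (∑ i, Polynomial.C (u i * b i * p (emb i) s) * q i).eval (b j))
        = (u j * b j * ∏ k ∈ Finset.univ.erase j, (b j - b k)) • p (emb j) := by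
      intro j
      rw [hev, Finset.sum_eq_single j]
      · intro i _ hij
        rw [Finset.prod_eq_zero (i := j) (by simp [hij.symm]) (sub_self _)]
        simp
      · simp
    intro l
    fin_cases l
    · exact hbi 0
    · exact hbi 1
    · exact hbi 2
    · exact hbi 3
    · exact hbi 4
    · change (fun s => (∑ i, Polynomial.C (u i * b i * p (emb i) s) * q i).eval 0)
        = (∏ k, b k) • p 5
      rw [hev, ← hu, Finset.smul_sum]
      apply Finset.sum_congr rfl
      intro i _
      rw [smul_smul]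
      congr 1
      rw [← Finset.mul_prod_erase Finset.univ b (Finset.mem_univ i)]
      simp only [zero_sub]
      rw [Finset.prod_neg, Finset.card_erase_of_mem (Finset.mem_univ i)]
      simp
      ring
    · change (fun s => (∑ i, Polynomial.C (u i * b i * p (emb i) s) * q i).eval 1)
        = (-lam * ∏ k, (1 - b k)) • p 6
      rw [hev, ← hv, Finset.smul_sum]
      apply Finset.sum_congr rfl
      intro i _
      rw [smul_smul]
      congr 1
      rw [← Finset.mul_prod_erase Finset.univ (fun k => 1 - b k) (Finset.mem_univ i), hb1 i]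
      ring

lemma sum_le_natDegree {ι : Type} [Fintype ι] {P : Polynomial ℂ} (hP : P ≠ 0) {a : ι → ℂ}
    (ha : Function.Injective a) (e : ι → ℕ)
    (he : ∀ l, (Polynomial.X - Polynomial.C (a l)) ^ (e l) ∣ P) : ∑ l, e l ≤ P.natDegree := by
  have hd : ∏ l, (Polynomial.X - Polynomial.C (a l)) ^ (e l) ∣ P := by
    apply Finset.prod_dvd_of_coprime
    · intro i _ j _ hij
      exact (Polynomial.pairwise_coprime_X_sub_C ha hij).pow
    · intro i _
      exact he i
  have := Polynomial.natDegree_le_of_dvd hd hP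
  rwa [Polynomial.natDegree_prod_of_monic _ _ (fun k _ => (Polynomial.monic_X_sub_C _).pow _),
    Finset.sum_congr rfl (fun l _ => by
      rw [Polynomial.natDegree_pow, Polynomial.natDegree_X_sub_C, mul_one])] at this

lemma natDegree_aeval_le {γ : Fin 5 → Polynomial ℂ} (hγ : ∀ s, (γ s).natDegree ≤ 4)
    {F : MvPolynomial (Fin 5) ℂ} {d : ℕ} (hF : F.IsHomogeneous d) :
    (aeval γ F).natDegree ≤ d * 4 :=
  MvPolynomial.aeval_natDegree_le F hF.totalDegree_le γ hγ

lemma eval_aeval_curve (γ : Fin 5 → Polynomial ℂ) (t : ℂ) (F : MvPolynomial (Fin 5) ℂ) :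
    (aeval γ F).eval t = eval (fun s => (γ s).eval t) F := by
  induction F using MvPolynomial.induction_on with
  | C a => simp
  | add f g hf hg => simp [hf, hg]
  | mul_X f i hf => simp [hf]

lemma dvd_aeval_of_mem (γ : Fin 5 → Polynomial ℂ) (t : ℂ) {F : MvPolynomial (Fin 5) ℂ} {e : ℕ}
    (hF : F ∈ (RingHom.ker (eval (fun s => (γ s).eval t))) ^ e) :
    (Polynomial.X - Polynomial.C t) ^ e ∣ aeval γ F := by
  have h1 : Ideal.map (aeval γ : MvPolynomial (Fin 5) ℂ →ₐ[ℂ] Polynomial ℂ)
      (RingHom.ker (eval (fun s => (γ s).eval t)))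
      ≤ Ideal.span {Polynomial.X - Polynomial.C t} := by
    rw [Ideal.map_le_iff_le_comap]
    intro G hG
    rw [Ideal.mem_comap, Ideal.mem_span_singleton, Polynomial.dvd_iff_isRoot, Polynomial.IsRoot,
      eval_aeval_curve]
    exact hG
  have h2 := Ideal.mem_map_of_mem (aeval γ : MvPolynomial (Fin 5) ℂ →ₐ[ℂ] Polynomial ℂ) hF
  rw [Ideal.map_pow] at h2
  have h3 := Ideal.pow_right_mono h1 e h2
  rwa [Ideal.span_singleton_pow, Ideal.mem_span_singleton] at h3

end Pool.Agent.Lib.MP_efa40c_ag
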