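import Pool.Agent.Lib.MP_efa40c_ag.Count

/-!
A nonzero polynomial in the coordinates of nine points whose nonvanishing gives linearly general
position, and the numerical estimate for the virtual dimension.
-/

namespace Pool.Agent.Lib.MP_efa40c_ag

open MvPolynomial

set_option linter.unusedSectionVars false
set_option linter.unusedSimpArgs false
set_option linter.unusedVariables false

/-- The product of all maximal minors of the generic matrix of coordinates. -/
noncomputable def minors : MvPolynomial (Fin 9 × Fin 5) ℂ :=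
  ∏ e : Fin 5 ↪ Fin 9, Matrix.det (Matrix.of (fun j a => X (e j, a)))

lemma eval_minors (p : Fin 9 → Fin 5 → ℂ) :
    eval (fun x : Fin 9 × Fin 5 => p x.1 x.2) minors
      = ∏ e : Fin 5 ↪ Fin 9, Matrix.det (Matrix.of (fun j a => p (e j) a)) := by
  rw [minors, map_prod]
  apply Finset.prod_congr rfl
  intro e _
  rw [RingHom.map_det]
  congr 1
  ext j a
  simp

lemma minors_ne_zero : minors ≠ 0 := by
  intro h0
  have h := eval_minors (fun i a => ((i : ℕ) : ℂ) ^ (a : ℕ))
  rw [h0, map_zero] at h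
  apply (Finset.prod_ne_zero_iff.mpr _) h.symm
  intro e _
  have : (Matrix.of (fun (j a : Fin 5) => (((e j : Fin 9) : ℕ) : ℂ) ^ (a : ℕ)))
      = Matrix.vandermonde (fun j => (((e j : Fin 9) : ℕ) : ℂ)) := by
    ext j a
    simp [Matrix.vandermonde]
  rw [this, Matrix.det_vandermonde_ne_zero_iff]
  intro i j hij
  apply e.injective
  apply Fin.ext
  exact Nat.cast_injective (R := ℂ) hij

lemma hyp_of_minors {p : Fin 9 → Fin 5 → ℂ}
    (h : eval (fun x : Fin 9 × Fin 5 => p x.1 x.2) minors ≠ 0) : Hyp p := by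
  intro S hS k hk
  rw [eval_minors, Finset.prod_ne_zero_iff] at h
  obtain ⟨T, hT, hT5⟩ := Finset.exists_superset_card_eq (s := insert k S) (n := 5)
    (le_trans (Finset.card_insert_le _ _) (by omega)) (by simp)
  set e := T.orderEmbOfFin hT5 with he
  have hdet := h e.toEmbedding (Finset.mem_univ _)
  have hli : LinearIndependent ℂ (fun j => p (e j)) :=
    Matrix.linearIndependent_rows_of_det_ne_zero hdet
  have hrange : Set.range e = T := Finset.range_orderEmbOfFin T hT5
  have hon : LinearIndepOn ℂ p (T : Set (Fin 9)) := by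
    rw [← hrange]
    exact (linearIndepOn_range_iff e.injective p).mpr hli
  have hon' : LinearIndepOn ℂ p (insert k (S : Set (Fin 9))) :=
    hon.mono (by exact_mod_cast hT)
  have hnot : p k ∉ Submodule.span ℂ (p '' (S : Set (Fin 9))) :=
    ((linearIndepOn_insert (by exact_mod_cast hk)).mp hon').2
  obtain ⟨f, hf, hf0⟩ := Submodule.exists_dual_map_eq_bot_of_notMem hnot inferInstance
  refine ⟨f, hf, fun l hl => ?_⟩
  have : f (p l) ∈ Submodule.map f (Submodule.span ℂ (p '' (S : Set (Fin 9)))) :=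
    Submodule.mem_map_of_mem (Submodule.subset_span ⟨l, hl, rfl⟩)
  rw [hf0] at this
  exact this

/-- Constant terms of the linear minorants. -/
def ca : ℕ → ℤ
  | 0 => 111930
  | 1 => -12650
  | 2 => 70
  | _ => 0

/-- Slopes of the linear minorants. -/
def cb : ℕ → ℤ
  | 1 => 280
  | 2 => -35
  | _ => 0

lemma term_ge : ∀ c ≤ 4, ∀ S ≤ 88, S ≤ 22 * c → ca c + cb c * (22 * (c : ℤ) - (S : ℕ)) ≤
    (-1 : ℤ) ^ c * ((4 + (((S : ℕ) : ℤ) - ((c : ℤ) - 1) * (38 : ℕ)).toNat - c).choose 4 : ℕ) := by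
  decide +kernel

lemma sum_ca : ∑ I ∈ Finset.univ.filter (fun I : Finset (Fin 9) => I.card ≤ min 4 9),
    ca I.card = 600 := by
  decide +kernel

lemma sum_cb : ∀ i : Fin 9, ∑ I ∈ Finset.univ.filter (fun I : Finset (Fin 9) => I.card ≤ min 4 9),
    (if i ∈ I then cb I.card else 0) = 0 := by
  decide +kernel

lemma virt_eq : ∑ I ∈ Finset.univ.filter (fun I : Finset (Fin 9) => I.card ≤ min 4 9),
    (-1 : ℤ) ^ I.card * ((4 + ((∑ _i ∈ I, ((22 : ℕ) : ℤ))
      - ((I.card : ℤ) - 1) * (38 : ℕ)).toNat - I.card).choose 4 : ℕ) = 600 := by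
  decide +kernel

lemma virt_ge (m : Fin 9 → ℕ) (hm : ∀ i, m i ≤ 22) :
    600 ≤ ∑ I ∈ Finset.univ.filter (fun I : Finset (Fin 9) => I.card ≤ min 4 9),
    (-1 : ℤ) ^ I.card * ((4 + ((∑ i ∈ I, (m i : ℤ))
      - ((I.card : ℤ) - 1) * (38 : ℕ)).toNat - I.card).choose 4 : ℕ) := by
  have h1 : ∑ I ∈ Finset.univ.filter (fun I : Finset (Fin 9) => I.card ≤ min 4 9),
      (ca I.card + ∑ i, (if i ∈ I then cb I.card else 0) * (22 - (m i : ℤ))) = 600 := by
    rw [Finset.sum_add_distrib, sum_ca, Finset.sum_comm]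
    simp only [← Finset.sum_mul, sum_cb]
    simp
  rw [← h1]
  apply Finset.sum_le_sum
  intro I hI
  have hc : I.card ≤ 4 := by simpa using hI
  have hS : ∑ i ∈ I, m i ≤ 22 * I.card := by
    rw [mul_comm, ← smul_eq_mul]
    exact Finset.sum_le_card_nsmul _ _ _ (fun i _ => hm i)
  have := term_ge I.card hc (∑ i ∈ I, m i) (by omega) hS
  rw [Nat.cast_sum] at this
  refine le_trans (le_of_eq ?_) this
  congr 1
  simp only [ite_mul, zero_mul]
  rw [Finset.sum_ite_mem, Finset.univ_inter, ← Finset.mul_sum, Finset.sum_sub_distrib]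
  simp [mul_comm]

end Pool.Agent.Lib.MP_efa40c_ag
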